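import Pool.Agent.Q230.AS.Defs

set_option autoImplicit false

namespace Pool.Agent.Q230.AS

variable {V : Type}

/-- the bipartite representation -/
def BG (A : V → V → Prop) : SimpleGraph (V ⊕ V) where
  Adj s t := match s, t with
    | Sum.inl u, Sum.inr v => A u v
    | Sum.inr v, Sum.inl u => A u v
    | _, _ => False
  symm := ⟨by
    rintro (u | u) (v | v) h <;> exact h⟩
  loopless := ⟨by rintro (u | u) h <;> exact h⟩

/-- the side -/
def sd : V ⊕ V → Bool
  | Sum.inl _ => true
  | Sum.inr _ => false

/-- the vertex -/
def un : V ⊕ V → V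
  | Sum.inl v => v
  | Sum.inr v => v

/-- the vertex on a side -/
def ps (b : Bool) (v : V) : V ⊕ V := if b = true then Sum.inl v else Sum.inr v

theorem ps_sd_un (s : V ⊕ V) : ps (sd s) (un s) = s := by
  cases s <;> rfl

theorem altArcs_true_cons (a b : V) (l : List V) :
    altArcs true (a :: b :: l) = (a, b) :: altArcs false (b :: l) := by rw [altArcs]

theorem altArcs_false_cons (a b : V) (l : List V) :
    altArcs false (a :: b :: l) = (b, a) :: altArcs true (b :: l) := by rw [altArcs]

theorem altArcs_single (f : Bool) (a : V) : altArcs f [a] = [] := by cases f <;> rfl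

theorem reach_of_trail {A : V → V → Prop} : ∀ (l : List V) (f : Bool) (a b : V),
    l.head? = some a → l.getLast? = some b → (∀ c ∈ altArcs f l, A c.1 c.2) →
    (BG A).Reachable (ps f a) (ps (if Even l.length then !f else f) b)
  | [], f, a, b, h, _, _ => by simp at h
  | [x], f, a, b, h1, h2, _ => by
    simp only [List.head?_cons, Option.some.injEq, List.getLast?_singleton] at h1 h2
    subst h1; subst h2
    simp
  | x :: y :: l, f, a, b, h1, h2, h3 => by
    simp only [List.head?_cons, Option.some.injEq] at h1
    subst h1
    rw [List.getLast?_cons_cons] at h2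
    have h4 : (BG A).Adj (ps f x) (ps (!f) y) := by
      cases f
      · exact h3 (y, x) (by rw [altArcs_false_cons]; simp)
      · exact h3 (x, y) (by rw [altArcs_true_cons]; simp)
    have h5 := reach_of_trail (y :: l) (!f) y b rfl h2 (by
      intro c hc
      apply h3
      cases f
      · rw [altArcs_false_cons]; exact List.mem_cons_of_mem _ hc
      · rw [altArcs_true_cons]; exact List.mem_cons_of_mem _ hc)
    have h6 := h4.reachable.trans h5
    have e : (if Even (y :: l).length then !(!f) else !f) =
        if Even (x :: y :: l).length then !f else f := by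
      have : Even (x :: y :: l).length ↔ ¬ Even (y :: l).length := by
        rw [List.length_cons]; exact Nat.even_add_one
      by_cases he : Even (y :: l).length
      · rw [if_pos he, if_neg (by rw [this]; exact fun h => h he)]; simp
      · rw [if_neg he, if_pos (this.2 he)]
    rw [e] at h6
    exact h6

/-- the edge of an arc -/
def ed (a : V × V) : Sym2 (V ⊕ V) := s(Sum.inl a.1, Sum.inr a.2)

theorem walk_spec {A : V → V → Prop} {s t : V ⊕ V} (p : (BG A).Walk s t) :
    (altArcs (sd s) (p.support.map un)).map ed = p.edges ∧
      (Even p.length ↔ sd s = sd t) ∧ (∀ c ∈ altArcs (sd s) (p.support.map un), A c.1 c.2) := by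
  induction p with
  | nil => simp [altArcs_single]
  | @cons s s' t h p ih =>
    obtain ⟨h1, h2, h3⟩ := ih
    obtain ⟨r, hr⟩ : ∃ r, p.support = s' :: r := by
      cases p with
      | nil => exact ⟨[], rfl⟩
      | cons h p => exact ⟨_, rfl⟩
    rw [SimpleGraph.Walk.support_cons, SimpleGraph.Walk.edges_cons, SimpleGraph.Walk.length_cons]
    rw [hr] at h1 h3 ⊢
    simp only [List.map_cons] at h1 h3 ⊢
    rcases s with u | u <;> rcases s' with v | v
    · exact absurd h id
    · simp only [sd, un] at h1 h2 h3 ⊢
      rw [altArcs_true_cons, List.map_cons, h1]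
      refine ⟨rfl, ?_, ?_⟩
      · rw [Nat.even_add_one, h2]
        cases sd t <;> simp
      · intro c hc
        rcases List.mem_cons.1 hc with rfl | hc
        · exact h
        · exact h3 c hc
    · simp only [sd, un] at h1 h2 h3 ⊢
      rw [altArcs_false_cons, List.map_cons, h1]
      refine ⟨?_, ?_, ?_⟩
      · rw [ed, Sym2.eq_swap]
      · rw [Nat.even_add_one, h2]
        cases sd t <;> simp
      · intro c hc
        rcases List.mem_cons.1 hc with rfl | hc
        · exact h
        · exact h3 c hc
    · exact absurd h id

theorem trail_of_reach {A : V → V → Prop} {x y : V}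
    (h : (BG A).Reachable (Sum.inl x) (Sum.inr y)) : ∃ l, FwdTrail A x y l := by
  classical
  obtain ⟨p, hp⟩ := h.exists_isPath
  obtain ⟨h1, h2, h3⟩ := walk_spec p
  refine ⟨p.support.map un, ?_, ?_, ?_, ?_, h3⟩
  · rw [List.head?_map]
    cases p with
    | cons h p => rfl
  · rw [List.getLast?_map]
    have : p.support.getLast? = some (Sum.inr y) := by
      rw [List.getLast?_eq_getLast_of_ne_nil (SimpleGraph.Walk.support_ne_nil p),
        SimpleGraph.Walk.getLast_support]
    rw [this]; rfl
  · rw [List.length_map, SimpleGraph.Walk.length_support, Nat.even_add_one, h2]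
    simp [sd]
  · have h4 := hp.isTrail.edges_nodup
    rw [← h1] at h4
    exact h4.of_map

theorem antistrong_iff [Fintype V] {A : V → V → Prop} :
    Antistrong A ↔ 3 ≤ Fintype.card V ∧ ∀ s t, (BG A).Reachable s t := by
  classical
  constructor
  · rintro ⟨hc, h⟩
    refine ⟨hc, ?_⟩
    have h1 : ∀ x y, x ≠ y → (BG A).Reachable (Sum.inl x) (Sum.inr y) := by
      intro x y hxy
      obtain ⟨l, h1, h2, h3, -, h4⟩ := h x y hxy
      have := reach_of_trail l true x y h1 h2 h4
      rw [if_pos h3] at this
      exact this
    have hex : ∀ x y : V, ∃ z, z ≠ x ∧ z ≠ y := by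
      intro x y
      by_contra hcon
      push_neg at hcon
      have h2 : (Finset.univ : Finset V) ⊆ {x, y} := by
        intro z _
        simp only [Finset.mem_insert, Finset.mem_singleton]
        by_cases hz : z = x
        · exact Or.inl hz
        · exact Or.inr (hcon z hz)
      have h3 := (Finset.card_le_card h2).trans Finset.card_le_two
      rw [Finset.card_univ] at h3
      omega
    have h2 : ∀ x y, (BG A).Reachable (Sum.inl x) (Sum.inr y) := by
      intro x y
      by_cases hxy : x = y
      · subst hxy
        obtain ⟨z, hz, -⟩ := hex x x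
        obtain ⟨w, hw, hw'⟩ := hex x z
        exact (h1 x z hz.symm).trans ((h1 w z hw').symm.trans (h1 w x hw))
      · exact h1 x y hxy
    rintro (x | x) (y | y)
    · exact (h2 x x).trans (h2 y x).symm
    · exact h2 x y
    · exact (h2 y x).symm
    · exact (h2 x x).symm.trans (h2 x y)
  · rintro ⟨hc, h⟩
    exact ⟨hc, fun x y _ => trail_of_reach (h _ _)⟩

end Pool.Agent.Q230.AS
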