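import Pool.Agent.Q230.AS.Bip

set_option autoImplicit false

namespace Pool.Agent.Q230.AS

open Relation

variable {X : Type}

/-- the digraph with in-neighbours `i1 x`, `i2 x` of `x`, and an additional vertex -/
def DA (i1 i2 : X → X) (w1 w2 : X) : Option X → Option X → Prop
  | some u, some v => u = i1 v ∨ u = i2 v
  | some _, none => True
  | none, some v => v = w1 ∨ v = w2
  | none, none => False

/-- Hamiltonian cycles -/
def Ham (i1 i2 : X → X) : Prop :=
  ∃ g : Equiv.Perm X, (∀ x, x = i1 (g x) ∨ x = i2 (g x)) ∧ ∀ x y, g.SameCycle x y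

section back

variable [DecidableEq X] {i1 i2 : X → X} {w1 w2 : X} {g : Equiv.Perm X}

/-- the strong part -/
def S2 (g : Equiv.Perm X) (w1 : X) : Option X → Option X → Prop
  | some u, some v => g u = v ∧ v ≠ w1
  | some u, none => g u = w1
  | none, some v => v = w1
  | none, none => False

/-- the antistrong part -/
def S1 (i1 i2 : X → X) (w1 w2 : X) (g : Equiv.Perm X) (a b : Option X) : Prop :=
  DA i1 i2 w1 w2 a b ∧ ¬ S2 g w1 a b

omit [DecidableEq X] in
theorem S2_le (h : ∀ x, x = i1 (g x) ∨ x = i2 (g x)) : ∀ a b, S2 g w1 a b → DA i1 i2 w1 w2 a b := by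
  rintro (_ | a) (_ | b) hab
  · exact hab
  · exact Or.inl hab
  · trivial
  · obtain ⟨rfl, -⟩ := hab
    exact h a

theorem strong_S2 [Finite X] (h : ∀ x y, g.SameCycle x y) : Strong (S2 g w1) := by
  have h1 : ∀ k : ℕ, ReflTransGen (S2 g w1) none (some ((g ^ k) w1)) := by
    intro k
    induction k with
    | zero => exact ReflTransGen.single rfl
    | succ k ih =>
      rw [pow_succ', Equiv.Perm.mul_apply]
      by_cases he : g ((g ^ k) w1) = w1
      · rw [he]; exact ReflTransGen.single rfl
      · exact ih.tail ⟨rfl, he⟩
  have h2 : ∀ x, ReflTransGen (S2 g w1) none (some x) := by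
    intro x
    obtain ⟨k, hk⟩ := (h w1 x).exists_nat_pow_eq
    rw [← hk]; exact h1 k
  have h3 : ∀ (k : ℕ) (x : X), (g ^ (k + 1)) x = w1 → ReflTransGen (S2 g w1) (some x) none := by
    intro k
    induction k with
    | zero =>
      intro x hx
      exact ReflTransGen.single (show g x = w1 by simpa using hx)
    | succ k ih =>
      intro x hx
      by_cases he : g x = w1
      · exact ReflTransGen.single he
      · refine ReflTransGen.head (b := some (g x)) ⟨rfl, he⟩ (ih (g x) ?_)
        rw [pow_succ, Equiv.Perm.mul_apply] at hx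
        exact hx
  have h4 : ∀ x, ReflTransGen (S2 g w1) (some x) none := by
    intro x
    obtain ⟨k, hk0, -, hk⟩ := (h x w1).exists_pow_eq''
    obtain ⟨k, rfl⟩ : ∃ j, k = j + 1 := ⟨k - 1, by omega⟩
    exact h3 k x hk
  rintro (_ | a) (_ | b)
  · exact ReflTransGen.refl
  · exact h2 b
  · exact h4 a
  · exact (h4 a).trans (h2 b)

theorem conn_S1 (hne : ∀ x, i1 x ≠ i2 x) (hw : w1 ≠ w2)
    (h : ∀ x, x = i1 (g x) ∨ x = i2 (g x)) (s t : Option X ⊕ Option X) :
    (BG (S1 i1 i2 w1 w2 g)).Reachable s t := by
  have adj : ∀ a b, DA i1 i2 w1 w2 a b → ¬ S2 g w1 a b →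
      (BG (S1 i1 i2 w1 w2 g)).Reachable (Sum.inl a) (Sum.inr b) := fun a b h1 h2 =>
    SimpleGraph.Adj.reachable (show (BG (S1 i1 i2 w1 w2 g)).Adj (Sum.inl a) (Sum.inr b) from
      ⟨h1, h2⟩)
  -- tails other than the predecessor of `w1`
  have c1 : ∀ v, g v ≠ w1 →
      (BG (S1 i1 i2 w1 w2 g)).Reachable (Sum.inl (some v)) (Sum.inr none) := fun v hv =>
    adj (some v) none trivial hv
  have c2 : (BG (S1 i1 i2 w1 w2 g)).Reachable (Sum.inr (some w1)) (Sum.inr none) := by
    have key : ∀ t, t = i1 w1 ∨ t = i2 w1 → g t ≠ w1 →
        (BG (S1 i1 i2 w1 w2 g)).Reachable (Sum.inr (some w1)) (Sum.inr none) := by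
      intro t ht ht'
      exact (adj (some t) (some w1) ht (fun h => ht' h.1)).symm.trans (c1 t ht')
    by_cases h1 : g (i1 w1) = w1
    · refine key (i2 w1) (Or.inr rfl) fun h2 => hne w1 ?_
      exact g.injective (h1.trans h2.symm)
    · exact key _ (Or.inl rfl) h1
  have c3 : ∀ v, (BG (S1 i1 i2 w1 w2 g)).Reachable (Sum.inl (some v)) (Sum.inr none) := by
    intro v
    by_cases hv : g v = w1
    · have h1 := h v
      rw [hv] at h1
      exact (adj (some v) (some w1) h1 (fun h => h.2 rfl)).trans c2
    · exact c1 v hv
  have c4 : ∀ x, (BG (S1 i1 i2 w1 w2 g)).Reachable (Sum.inr (some x)) (Sum.inr none) := by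
    intro x
    by_cases hx : g (i1 x) = x
    · have hx2 : g (i2 x) ≠ x := fun h2 => hne x (g.injective (hx.trans h2.symm))
      exact (adj (some (i2 x)) (some x) (Or.inr rfl) (fun h => hx2 h.1)).symm.trans (c3 _)
    · exact (adj (some (i1 x)) (some x) (Or.inl rfl) (fun h => hx h.1)).symm.trans (c3 _)
  have c5 : (BG (S1 i1 i2 w1 w2 g)).Reachable (Sum.inl none) (Sum.inr none) :=
    (adj none (some w2) (Or.inr rfl) (fun h => hw h.symm)).trans (c4 w2)
  have c6 : ∀ s, (BG (S1 i1 i2 w1 w2 g)).Reachable s (Sum.inr none) := by
    rintro ((_ | v) | (_ | v))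
    · exact c5
    · exact c3 v
    · exact SimpleGraph.Reachable.refl _
    · exact c4 v
  exact (c6 s).trans (c6 t).symm

theorem pair_of_ham [Fintype X] (hc : 2 ≤ Fintype.card X) (hne : ∀ x, i1 x ≠ i2 x) (hw : w1 ≠ w2)
    (h : Ham i1 i2) : AntiStrongPair (DA i1 i2 w1 w2) := by
  obtain ⟨g, h1, h2⟩ := h
  refine ⟨S1 i1 i2 w1 w2 g, S2 g w1, fun u v h => h.1, S2_le h1, fun u v h => h.1.2 h.2, ?_,
    strong_S2 h2⟩
  rw [antistrong_iff]
  refine ⟨?_, conn_S1 hne hw h1⟩
  rw [Fintype.card_option]; omega

end back

theorem reach_closed {W : Type} {G : SimpleGraph W} {Q : W → Prop}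
    (hQ : ∀ s t, G.Adj s t → Q s → Q t) {s t : W} (h : G.Reachable s t) (hs : Q s) : Q t := by
  obtain ⟨p⟩ := h
  induction p with
  | nil => exact hs
  | cons h p ih => exact ih (hQ _ _ h hs)

section forth

variable [Fintype X] [DecidableEq X] {i1 i2 : X → X} {w1 w2 : X}

open Classical in
theorem card_DA : (Finset.univ.filter fun p : Option X × Option X =>
    DA i1 i2 w1 w2 p.1 p.2).card ≤ 3 * Fintype.card X + 2 := by
  have h1 : (Finset.univ.filter fun p : Option X × Option X => DA i1 i2 w1 w2 p.1 p.2) ⊆
      (Finset.univ.image fun x : X => ((some (i1 x), some x) : Option X × Option X)) ∪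
      ((Finset.univ.image fun x : X => ((some (i2 x), some x) : Option X × Option X)) ∪
      ((Finset.univ.image fun x : X => ((some x, none) : Option X × Option X)) ∪
      {(none, some w1), (none, some w2)})) := by
    rintro ⟨a, b⟩ hab
    rw [Finset.mem_filter] at hab
    have hab := hab.2
    simp only [Finset.mem_union, Finset.mem_image, Finset.mem_univ, true_and, Finset.mem_insert,
      Finset.mem_singleton, Prod.mk.injEq]
    rcases a with _ | a <;> rcases b with _ | b
    · exact absurd hab id
    · rcases hab with rfl | rfl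
      · right; right; right; left; exact ⟨rfl, rfl⟩
      · right; right; right; right; exact ⟨rfl, rfl⟩
    · right; right; left; exact ⟨a, rfl, rfl⟩
    · rcases hab with h | h
      · left; exact ⟨b, by rw [← h], rfl⟩
      · right; left; exact ⟨b, by rw [← h], rfl⟩
  refine (Finset.card_le_card h1).trans ?_
  refine (Finset.card_union_le _ _).trans ?_
  have e1 : (Finset.univ.image fun x : X => ((some (i1 x), some x) : Option X × Option X)).card ≤
      Fintype.card X := Finset.card_image_le
  have e2 : ((Finset.univ.image fun x : X => ((some (i2 x), some x) : Option X × Option X)) ∪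
      ((Finset.univ.image fun x : X => ((some x, none) : Option X × Option X)) ∪
      {(none, some w1), (none, some w2)})).card ≤ Fintype.card X + (Fintype.card X + 2) := by
    refine (Finset.card_union_le _ _).trans (Nat.add_le_add Finset.card_image_le ?_)
    exact (Finset.card_union_le _ _).trans (Nat.add_le_add Finset.card_image_le
      Finset.card_le_two)
  omega

theorem ham_of_pair (hc : 2 ≤ Fintype.card X) (hne : ∀ x, i1 x ≠ i2 x)
    (h : AntiStrongPair (DA i1 i2 w1 w2)) : Ham i1 i2 := by
  classical
  obtain ⟨A₁, A₂, h1, h2, hdis, ha, hs⟩ := h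
  rw [antistrong_iff] at ha
  obtain ⟨-, ha⟩ := ha
  set n := Fintype.card X with hn
  have hV : Fintype.card (Option X) = n + 1 := Fintype.card_option
  let T1 := Finset.univ.filter fun p : Option X × Option X => A₁ p.1 p.2
  let T2 := Finset.univ.filter fun p : Option X × Option X => A₂ p.1 p.2
  have hT : T1.card + T2.card ≤ 3 * n + 2 := by
    have hd : Disjoint T1 T2 := by
      rw [Finset.disjoint_left]
      intro p hp hp'
      simp only [T1, T2, Finset.mem_filter, Finset.mem_univ, true_and] at hp hp'
      exact hdis _ _ ⟨hp, hp'⟩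
    rw [← Finset.card_union_of_disjoint hd]
    refine (Finset.card_le_card ?_).trans (card_DA (i1 := i1) (i2 := i2) (w1 := w1) (w2 := w2))
    intro p hp
    simp only [T1, T2, Finset.mem_union, Finset.mem_filter, Finset.mem_univ, true_and] at hp ⊢
    rcases hp with hp | hp
    · exact h1 _ _ hp
    · exact h2 _ _ hp
  have hT1 : 2 * (n + 1) ≤ T1.card + 1 := by
    haveI : Nonempty (Option X ⊕ Option X) := ⟨Sum.inl none⟩
    have hconn : (BG A₁).Connected := ⟨fun s t => ha s t⟩
    have h3 := hconn.card_vert_le_card_edgeSet_add_one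
    have h4 : Nat.card (BG A₁).edgeSet ≤ T1.card := by
      have h5 : (BG A₁).edgeSet ⊆ ((T1.image ed : Finset (Sym2 (Option X ⊕ Option X))) :
          Set (Sym2 (Option X ⊕ Option X))) := by
        intro e
        induction e using Sym2.ind with
        | _ s t =>
          intro he
          rw [SimpleGraph.mem_edgeSet] at he
          rw [Finset.coe_image]
          rcases s with u | u <;> rcases t with v | v
          · exact absurd he id
          · exact ⟨(u, v), by simp only [T1, Finset.coe_filter, Finset.mem_univ, true_and]; exact he, rfl⟩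
          · refine ⟨(v, u), by simp only [T1, Finset.coe_filter, Finset.mem_univ, true_and]; exact he, ?_⟩
            exact Sym2.eq_swap
          · exact absurd he id
      have h6 := Nat.card_mono (Finset.finite_toSet _) h5
      refine h6.trans ?_
      rw [Nat.card_eq_card_toFinset, Finset.toFinset_coe]
      exact Finset.card_image_le
    rw [Nat.card_eq_fintype_card, Fintype.card_sum, hV] at h3
    omega
  have hT2 : T2.card ≤ n + 1 := by omega
  -- successors and predecessors
  have hex : ∀ a : Option X, ∃ b, b ≠ a := by
    intro a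
    haveI : Nontrivial (Option X) := Fintype.one_lt_card_iff_nontrivial.1 (by omega)
    exact exists_ne a
  have hout : ∀ a, ∃ b, A₂ a b := by
    intro a
    obtain ⟨b, hb⟩ := hex a
    rcases (hs a b).cases_head with h | ⟨c, hc, -⟩
    · exact absurd h.symm hb
    · exact ⟨c, hc⟩
  have hin : ∀ b, ∃ a, A₂ a b := by
    intro b
    obtain ⟨a, hab⟩ := hex b
    rcases (hs a b).cases_tail with h | ⟨c, -, hc⟩
    · exact absurd h.symm hab
    · exact ⟨c, hc⟩
  choose out hout using hout
  choose inn hinn using hin
  have hO : ∀ a b, A₂ a b → b = out a := by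
    intro a b hab
    have h3 : (Finset.univ.image fun a : Option X => (a, out a)) ⊆ T2 := by
      intro p hp
      simp only [Finset.mem_image, Finset.mem_univ, true_and] at hp
      obtain ⟨a, rfl⟩ := hp
      simp only [T2, Finset.mem_filter, Finset.mem_univ, true_and]
      exact hout a
    have h4 : (Finset.univ.image fun a : Option X => (a, out a)).card = n + 1 := by
      rw [Finset.card_image_of_injective _ (fun a b h => (Prod.mk.inj h).1), Finset.card_univ, hV]
    have h5 := Finset.eq_of_subset_of_card_le h3 (by omega)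
    have h6 : (a, b) ∈ T2 := by simp only [T2, Finset.mem_filter, Finset.mem_univ, true_and]; exact hab
    rw [← h5] at h6
    simp only [Finset.mem_image, Finset.mem_univ, true_and, Prod.mk.injEq] at h6
    obtain ⟨c, rfl, rfl⟩ := h6
    rfl
  have hI : ∀ a b, A₂ a b → a = inn b := by
    intro a b hab
    have h3 : (Finset.univ.image fun b : Option X => (inn b, b)) ⊆ T2 := by
      intro p hp
      simp only [Finset.mem_image, Finset.mem_univ, true_and] at hp
      obtain ⟨a, rfl⟩ := hp
      simp only [T2, Finset.mem_filter, Finset.mem_univ, true_and]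
      exact hinn a
    have h4 : (Finset.univ.image fun b : Option X => (inn b, b)).card = n + 1 := by
      rw [Finset.card_image_of_injective _ (fun a b h => (Prod.mk.inj h).2), Finset.card_univ, hV]
    have h5 := Finset.eq_of_subset_of_card_le h3 (by omega)
    have h6 : (a, b) ∈ T2 := by simp only [T2, Finset.mem_filter, Finset.mem_univ, true_and]; exact hab
    rw [← h5] at h6
    simp only [Finset.mem_image, Finset.mem_univ, true_and, Prod.mk.injEq] at h6
    obtain ⟨c, rfl, rfl⟩ := h6
    rfl
  have hinj : Function.Injective out := by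
    intro a b hab
    rw [hI _ _ (hout a), hI _ _ (hout b), hab]
  let e : Equiv.Perm (Option X) := Equiv.ofBijective out (Finite.injective_iff_bijective.1 hinj)
  have he : ∀ a b, A₂ a b ↔ e a = b := by
    intro a b
    constructor
    · intro h; exact (hO a b h).symm
    · rintro rfl; exact hout a
  -- the special vertices
  obtain ⟨w, hw⟩ : ∃ w, e none = some w := by
    cases hh : e none with
    | none =>
      have := h2 none none ((he _ _).2 hh)
      exact absurd this id
    | some w => exact ⟨w, rfl⟩
  have hw12 : w = w1 ∨ w = w2 := h2 none (some w) ((he _ _).2 hw)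
  obtain ⟨v, hv⟩ : ∃ v, e (some v) = none := by
    obtain ⟨a, ha⟩ := e.surjective none
    cases a with
    | none => rw [hw] at ha; exact absurd ha (by simp)
    | some v => exact ⟨v, ha⟩
  have key : v = i1 w ∨ v = i2 w := by
    by_contra hcon
    let Q : Option X ⊕ Option X → Prop := fun s =>
      s = Sum.inl (some v) ∨ (∃ u, s = Sum.inr (some u) ∧ (v = i1 u ∨ v = i2 u)) ∨
        (s = Sum.inl none ∧ ∃ w', w' ≠ w ∧ (w' = w1 ∨ w' = w2) ∧ (v = i1 w' ∨ v = i2 w'))
    have hnone : ∀ u, A₁ none (some u) → (u = w1 ∨ u = w2) ∧ u ≠ w := by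
      intro u hu
      refine ⟨h1 _ _ hu, ?_⟩
      rintro rfl
      exact hdis _ _ ⟨hu, (he _ _).2 hw⟩
    have hQ : ∀ s t, (BG A₁).Adj s t → Q s → Q t := by
      rintro s t hst (rfl | ⟨u, rfl, hu⟩ | ⟨rfl, w', hw', hw'', hv'⟩)
      · rcases t with b | b
        · exact absurd hst id
        have hst : A₁ (some v) b := hst
        rcases b with _ | u
        · exact absurd ⟨hst, (he _ _).2 hv⟩ (hdis _ _)
        · exact Or.inr (Or.inl ⟨u, rfl, h1 _ _ hst⟩)
      · rcases t with a | a
        swap
        · exact absurd hst id
        have hst : A₁ a (some u) := hst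
        rcases a with _ | t
        · exact Or.inr (Or.inr ⟨rfl, u, (hnone u hst).2, (hnone u hst).1, hu⟩)
        · left
          have ht : t = i1 u ∨ t = i2 u := h1 _ _ hst
          obtain ⟨b, hb⟩ := e.surjective (some u)
          rcases b with _ | t'
          · rw [hw] at hb
            have : w = u := Option.some.inj hb
            subst this
            exact absurd hu hcon
          · have ht' : t' = i1 u ∨ t' = i2 u := h2 _ _ ((he _ _).2 hb)
            have e1 : t' ≠ v := by rintro rfl; rw [hv] at hb; exact absurd hb (by simp)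
            have e2 : t' ≠ t := by rintro rfl; exact hdis _ _ ⟨hst, (he _ _).2 hb⟩
            have e3 := hne u
            have : t = v := by
              rcases ht with rfl | rfl <;> rcases ht' with rfl | rfl <;> rcases hu with rfl | rfl <;>
                first | rfl | exact absurd rfl e1 | exact absurd rfl e2
            rw [this]
      · rcases t with b | b
        · exact absurd hst id
        have hst : A₁ none b := hst
        rcases b with _ | u
        · exact absurd (h1 _ _ hst) id
        · right; left
          refine ⟨u, rfl, ?_⟩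
          obtain ⟨f1, f2⟩ := hnone u hst
          have : u = w' := by
            rcases hw12 with rfl | rfl <;> rcases f1 with rfl | rfl <;> rcases hw'' with rfl | rfl <;>
              first | rfl | exact absurd rfl f2 | exact absurd rfl hw'
          rw [this]; exact hv'
    have := reach_closed hQ (ha (Sum.inl (some v)) (Sum.inr none)) (Or.inl rfl)
    rcases this with h | ⟨u, h, -⟩ | ⟨h, -⟩
    · exact absurd h (by simp)
    · exact absurd h (by simp)
    · exact absurd h (by simp)
  -- the Hamiltonian cycle
  let g : Equiv.Perm X := Equiv.removeNone e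
  have hg1 : ∀ x y, e (some x) = some y → g x = y := by
    intro x y hxy
    have := Equiv.removeNone_some e ⟨y, hxy⟩
    rw [hxy] at this
    exact Option.some.inj this
  have hg2 : g v = w := by
    have := Equiv.removeNone_none e hv
    rw [hw] at this
    exact Option.some.inj this
  refine ⟨g, fun x => ?_, fun x y => ?_⟩
  · cases hx : e (some x) with
    | none =>
      have hxv : x = v := Option.some.inj (e.injective (hx.trans hv.symm))
      rw [hxv, hg2]; exact key
    | some y =>
      rw [hg1 x y hx]
      exact h2 _ _ ((he _ _).2 hx)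
  · have hstep : ∀ a b, A₂ a b → g.SameCycle (a.getD w) (b.getD w) := by
      intro a b hab
      rw [he] at hab
      rcases a with _ | a <;> rcases b with _ | b
      · exact Equiv.Perm.SameCycle.refl _ _
      · rw [hw] at hab
        have : w = b := Option.some.inj hab
        rw [this]
        exact Equiv.Perm.SameCycle.refl _ _
      · have hxv : a = v := Option.some.inj (e.injective (hab.trans hv.symm))
        simp only [Option.getD_some, Option.getD_none]
        rw [hxv, ← hg2]
        exact Equiv.Perm.sameCycle_apply_right.2 (Equiv.Perm.SameCycle.refl _ _)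
      · simp only [Option.getD_some]
        rw [← hg1 a b hab]
        exact Equiv.Perm.sameCycle_apply_right.2 (Equiv.Perm.SameCycle.refl _ _)
    have hpath : ∀ a b, ReflTransGen A₂ a b → g.SameCycle (a.getD w) (b.getD w) := by
      intro a b hab
      induction hab with
      | refl => exact Equiv.Perm.SameCycle.refl _ _
      | tail _ h ih => exact ih.trans (hstep _ _ h)
    exact hpath (some x) (some y) (hs _ _)

end forth

end Pool.Agent.Q230.AS
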