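import Mathlib

/-!
# Arc-disjoint antistrong and strong spanning subdigraphs: definitions
-/

set_option autoImplicit false

namespace Pool.Agent.Q230.AS

/-- The arcs used by the walk `v₁ v₂ … v_k`, alternately forward and backward, starting with a
forward arc (`fwd = true`) or with a backward arc. -/
def altArcs {V : Type} : Bool → List V → List (V × V)
  | true, a :: b :: l => (a, b) :: altArcs false (b :: l)
  | false, a :: b :: l => (b, a) :: altArcs true (b :: l)
  | _, _ => []

/-- `l` is a forward antidirected trail from `x` to `y` in the digraph with arc relation `A`: its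
arcs are alternately forward and backward, the first and the last one are forward (so the number
of arcs is odd and the number of vertices in the sequence is even), and no arc is repeated. -/
def FwdTrail {V : Type} (A : V → V → Prop) (x y : V) (l : List V) : Prop :=
  l.head? = some x ∧ l.getLast? = some y ∧ Even l.length ∧ (altArcs true l).Nodup ∧
    ∀ a ∈ altArcs true l, A a.1 a.2

/-- The digraph with arc relation `A` is antistrong. -/
def Antistrong {V : Type} [Fintype V] (A : V → V → Prop) : Prop :=
  3 ≤ Fintype.card V ∧ ∀ x y, x ≠ y → ∃ l, FwdTrail A x y l

/-- The digraph with arc relation `A` is strongly connected. -/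
def Strong {V : Type} (A : V → V → Prop) : Prop := ∀ x y, Relation.ReflTransGen A x y

/-- The digraph with arc relation `A` has two arc-disjoint spanning subdigraphs, one of them
antistrong and the other one strongly connected. -/
def AntiStrongPair {V : Type} [Fintype V] (A : V → V → Prop) : Prop :=
  ∃ A₁ A₂ : V → V → Prop, (∀ u v, A₁ u v → A u v) ∧ (∀ u v, A₂ u v → A u v) ∧
    (∀ u v, ¬ (A₁ u v ∧ A₂ u v)) ∧ Antistrong A₁ ∧ Strong A₂

/-- A digraph given by a number `n` of vertices `0, …, n - 1` and a list of arcs. -/
abbrev Inst : Type := ℕ × List (ℕ × ℕ)

/-- The arc relation. -/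
def arcs (I : Inst) : Fin I.1 → Fin I.1 → Prop := fun u v => (u.1, v.1) ∈ I.2

/-- The pairs in the list are arcs between two different vertices: the instance describes a
digraph without loops (and without parallel arcs, since the arcs are the members of the list). -/
def IsDigraph (I : Inst) : Prop := ∀ a ∈ I.2, a.1 < I.1 ∧ a.2 < I.1 ∧ a.1 ≠ a.2

/-- The decision problem. -/
def Problem (I : Inst) : Prop := IsDigraph I ∧ AntiStrongPair (arcs I)

end Pool.Agent.Q230.AS
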