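import Pool.Agent.Q230.AS.Core

set_option autoImplicit false

namespace Pool.Agent.Q230.AS

open Equiv Equiv.Perm

/-! ### Merging two cycles of a permutation -/

section merge

variable {X : Type} [Finite X] [DecidableEq X]

theorem merge_ab {f : Perm X} {a b : X} (h : ¬ f.SameCycle a b) :
    (f * swap a b).SameCycle b a := by
  classical
  -- iterates of `f` from `a` up to the first return
  have hex : ∃ n, 0 < n ∧ (f ^ n) a = a := by
    obtain ⟨n, h0, -, h1⟩ := (SameCycle.refl f a).exists_pow_eq''
    exact ⟨n, h0, h1⟩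
  obtain ⟨n, ⟨hn0, hn⟩, hmin⟩ : ∃ n, (0 < n ∧ (f ^ n) a = a) ∧
      ∀ m, m < n → ¬ (0 < m ∧ (f ^ m) a = a) :=
    ⟨Nat.find hex, Nat.find_spec hex, fun m hm => Nat.find_min hex hm⟩
  have key : ∀ i, i < n → ((f * swap a b) ^ (i + 1)) b = (f ^ (i + 1)) a := by
    intro i
    induction i with
    | zero => intro _; simp [swap_apply_right]
    | succ i ih =>
      intro hi
      rw [pow_succ', mul_apply, ih (by omega), mul_apply]
      have h1 : (f ^ (i + 1)) a ≠ a := fun he => hmin (i + 1) hi ⟨by omega, he⟩
      have h2 : (f ^ (i + 1)) a ≠ b := fun he => h ⟨((i + 1 : ℕ) : ℤ), by rw [zpow_natCast]; exact he⟩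
      rw [swap_apply_of_ne_of_ne h1 h2, pow_succ' f (i + 1), mul_apply]
  refine ⟨(n : ℤ), ?_⟩
  rw [zpow_natCast]
  have := key (n - 1) (by omega)
  rw [show n - 1 + 1 = n by omega] at this
  rw [this, hn]

theorem merge {f : Perm X} {a b : X} (h : ¬ f.SameCycle a b) {x y : X} (hxy : f.SameCycle x y) :
    (f * swap a b).SameCycle x y := by
  have hab := merge_ab h
  have h1 : ∀ x, (f * swap a b).SameCycle x (f x) := by
    intro x
    have hg : ∀ z, (f * swap a b).SameCycle z ((f * swap a b) z) := fun z =>
      sameCycle_apply_right.2 (SameCycle.refl _ _)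
    by_cases hxa : x = a
    · subst hxa
      have := hg b
      rw [mul_apply, swap_apply_right] at this
      exact hab.symm.trans this
    by_cases hxb : x = b
    · subst hxb
      have := hg a
      rw [mul_apply, swap_apply_left] at this
      exact hab.trans this
    · have := hg x
      rwa [mul_apply, swap_apply_of_ne_of_ne hxa hxb] at this
  obtain ⟨k, hk⟩ := hxy.exists_nat_pow_eq
  rw [← hk]
  clear hk
  induction k with
  | zero => exact SameCycle.refl _ _
  | succ k ih =>
    rw [pow_succ', mul_apply]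
    exact ih.trans (h1 _)

end merge

/-- the kinds of vertices -/
inductive K | T | S | U | W
  deriving DecidableEq, Fintype

/-- the structure of the occurrences -/
structure Str (O : Type) where
  /-- the signs -/
  s : O → Bool
  /-- next occurrence of the variable -/
  nx : Perm O
  /-- next occurrence in the clause -/
  tr : Perm O
  /-- next occurrence on the main line -/
  mn : Perm O

variable {O : Type}

/-- first tail -/
def Str.P (R : Str O) (o : O) : O × K := if R.s o = true then (o, K.S) else (o, K.T)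

/-- second tail -/
def Str.L (R : Str O) (o : O) : O × K := if R.s o = true then (o, K.T) else (o, K.S)

/-- first in-neighbour -/
def Str.i1 (R : Str O) : O × K → O × K
  | (o, K.T) => R.P (R.tr.symm o)
  | (o, K.U) => R.P o
  | (o, K.S) => (R.mn.symm o, K.W)
  | (o, K.W) => (o, K.U)

/-- second in-neighbour -/
def Str.i2 (R : Str O) : O × K → O × K
  | (o, K.T) => R.L (R.tr.symm o)
  | (o, K.U) => R.L (R.nx.symm o)
  | (o, K.S) => (o, K.U)
  | (o, K.W) => (R.mn.symm o, K.W)

theorem Str.P_ne_L (R : Str O) (o o' : O) (h : o = o' ∨ o ≠ o') : R.P o ≠ R.L o' := by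
  unfold Str.P Str.L
  rcases h with rfl | h
  · split_ifs <;> simp
  · split_ifs <;> simp [h]

/-- the satisfying condition -/
def Str.Good (R : Str O) (val : O → Bool) : Prop :=
  (∀ o, val (R.nx o) = val o) ∧
    ∀ o, val o = R.s o ∨ val (R.tr o) = R.s (R.tr o) ∨ val (R.tr (R.tr o)) = R.s (R.tr (R.tr o))

/-- the basic permutation -/
def Str.fwd (R : Str O) (val : O → Bool) : O × K → O × K
  | (o, K.W) => (R.mn o, K.S)
  | (o, K.U) => (o, K.W)
  | (o, K.S) => if R.s o = true then (if val o = true then (R.tr o, K.T) else (o, K.U)) else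
      (if val o = true then (R.nx o, K.U) else (R.tr o, K.T))
  | (o, K.T) => if R.s o = true then (if val o = true then (R.nx o, K.U) else (R.tr o, K.T)) else
      (if val o = true then (R.tr o, K.T) else (o, K.U))

/-- its inverse -/
def Str.bwd (R : Str O) (val : O → Bool) : O × K → O × K
  | (o, K.T) => if val (R.tr.symm o) = true then R.P (R.tr.symm o) else R.L (R.tr.symm o)
  | (o, K.U) => if val o = true then R.L (R.nx.symm o) else R.P o
  | (o, K.S) => (R.mn.symm o, K.W)
  | (o, K.W) => (o, K.U)

/-- the basic permutation -/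
def Str.perm (R : Str O) (val : O → Bool) (h : ∀ o, val (R.nx o) = val o) : Perm (O × K) where
  toFun := R.fwd val
  invFun := R.bwd val
  left_inv := by
    rintro ⟨o, k⟩
    cases k
    · simp only [Str.fwd]
      cases hs : R.s o <;> cases hv : val o <;>
        simp [Str.bwd, Str.P, Str.L, hs, hv, h]
    · simp only [Str.fwd]
      cases hs : R.s o <;> cases hv : val o <;>
        simp [Str.bwd, Str.P, Str.L, hs, hv, h]
    · simp [Str.fwd, Str.bwd]
    · simp [Str.fwd, Str.bwd]
  right_inv := by
    have h' : ∀ o, val (R.nx.symm o) = val o := by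
      intro o
      rw [← h (R.nx.symm o), Equiv.apply_symm_apply]
    rintro ⟨o, k⟩
    cases k
    · simp only [Str.bwd]
      cases hs : R.s (R.tr.symm o) <;> cases hv : val (R.tr.symm o) <;>
        simp [Str.fwd, Str.P, Str.L, hs, hv]
    · simp [Str.fwd, Str.bwd]
    · simp only [Str.bwd]
      cases hv : val o
      · cases hs : R.s o <;> simp [Str.fwd, Str.P, hs, hv]
      · cases hs : R.s (R.nx.symm o) <;> simp [Str.fwd, Str.L, hs, hv, h']
    · simp [Str.fwd, Str.bwd]

theorem Str.perm_arc (R : Str O) (val : O → Bool) (h : ∀ o, val (R.nx o) = val o) (x : O × K) :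
    x = R.i1 (R.perm val h x) ∨ x = R.i2 (R.perm val h x) := by
  have key : ∀ y, R.bwd val y = R.i1 y ∨ R.bwd val y = R.i2 y := by
    rintro ⟨o, k⟩
    cases k
    · simp only [Str.bwd, Str.i1, Str.i2]; split_ifs <;> simp
    · simp [Str.bwd, Str.i1, Str.i2]
    · simp only [Str.bwd, Str.i1, Str.i2]; split_ifs <;> simp
    · simp [Str.bwd, Str.i1, Str.i2]
  have h1 := key (R.perm val h x)
  have h2 : R.bwd val (R.perm val h x) = x := (R.perm val h).left_inv x
  rw [h2] at h1
  exact h1

section main

variable [Finite O] [DecidableEq O]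

/-- the invariant of the construction -/
structure Str.Inv (R : Str O) (f : Perm (O × K)) (o0 : O) (g : Perm (O × K)) : Prop where
  arc : ∀ x, x = R.i1 (g x) ∨ x = R.i2 (g x)
  coarse : ∀ x y, f.SameCycle x y → g.SameCycle x y
  uw : ∀ o, g.SameCycle (o, K.U) (o, K.W)
  off : ∀ o, ¬ g.SameCycle (o0, K.U) (o, K.U) →
    g (R.mn.symm o, K.W) = (o, K.S) ∧ g (o, K.U) = (o, K.W)

theorem Str.step {R : Str O} {f g : Perm (O × K)} {o0 o' : O} (h : R.Inv f o0 g)
    (ho : g.SameCycle (o0, K.U) (o', K.U)) :
    ∃ g', R.Inv f o0 g' ∧ (∀ x y, g.SameCycle x y → g'.SameCycle x y) ∧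
      g'.SameCycle (o0, K.U) (R.mn o', K.U) := by
  by_cases hs : g.SameCycle (o0, K.U) (R.mn o', K.U)
  · exact ⟨g, h, fun _ _ h => h, hs⟩
  obtain ⟨h1, h2⟩ := h.off _ hs
  rw [Equiv.symm_apply_apply] at h1
  have hn : ¬ g.SameCycle (o', K.W) (R.mn o', K.U) := by
    intro hc
    exact hs ((ho.trans (h.uw o')).trans hc)
  have hm : ∀ x y, g.SameCycle x y →
      (g * swap ((o', K.W) : O × K) (R.mn o', K.U)).SameCycle x y := fun x y => merge hn
  have hj := merge_ab hn
  have hU : (g * swap ((o', K.W) : O × K) (R.mn o', K.U)).SameCycle (o0, K.U) (R.mn o', K.U) :=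
    (hm _ _ (ho.trans (h.uw o'))).trans hj.symm
  refine ⟨g * swap ((o', K.W) : O × K) (R.mn o', K.U), ⟨?_, ?_, ?_, ?_⟩, hm, hU⟩
  · intro x
    by_cases hxa : x = (o', K.W)
    · subst hxa
      rw [mul_apply, swap_apply_left, h2]
      right
      simp [Str.i2]
    by_cases hxb : x = (R.mn o', K.U)
    · subst hxb
      rw [mul_apply, swap_apply_right, h1]
      right
      simp [Str.i2]
    · rw [mul_apply, swap_apply_of_ne_of_ne hxa hxb]
      exact h.arc x
  · exact fun x y hxy => hm _ _ (h.coarse x y hxy)
  · exact fun o => hm _ _ (h.uw o)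
  · intro o hno
    have hne : o ≠ R.mn o' := by rintro rfl; exact hno hU
    have hng : ¬ g.SameCycle (o0, K.U) (o, K.U) := fun hc => hno (hm _ _ hc)
    obtain ⟨k1, k2⟩ := h.off o hng
    constructor
    · rw [mul_apply, swap_apply_of_ne_of_ne _ (by simp), k1]
      intro he
      apply hne
      have := (Prod.mk.inj he).1
      rw [← this, Equiv.apply_symm_apply]
    · rw [mul_apply, swap_apply_of_ne_of_ne (by simp) (by simp [hne]), k2]

theorem Str.exists_all {R : Str O} {f : Perm (O × K)} {o0 : O} (h : R.Inv f o0 f)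
    (hmn : ∀ x y, R.mn.SameCycle x y) : ∃ g, R.Inv f o0 g ∧ ∀ o, g.SameCycle (o0, K.U) (o, K.U) := by
  have key : ∀ k : ℕ, ∃ g, R.Inv f o0 g ∧ ∀ j ≤ k, g.SameCycle (o0, K.U) ((R.mn ^ j) o0, K.U) := by
    intro k
    induction k with
    | zero =>
      refine ⟨f, h, fun j hj => ?_⟩
      have : j = 0 := by omega
      subst this
      exact SameCycle.refl _ _
    | succ k ih =>
      obtain ⟨g, hg, hk⟩ := ih
      obtain ⟨g', h1, h2, h3⟩ := Str.step hg (hk k le_rfl)
      refine ⟨g', h1, fun j hj => ?_⟩
      by_cases hj' : j ≤ k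
      · exact h2 _ _ (hk j hj')
      · have : j = k + 1 := by omega
        subst this
        rw [pow_succ', mul_apply]
        exact h3
  obtain ⟨g, hg, hk⟩ := key (orderOf R.mn)
  refine ⟨g, hg, fun o => ?_⟩
  obtain ⟨j, hj, hjo⟩ := (hmn o0 o).exists_pow_eq'
  rw [← hjo]
  exact hk j hj.le

theorem Str.ham_of_good {R : Str O} {val : O → Bool} (hv : R.Good val)
    (hmn : ∀ x y, R.mn.SameCycle x y) [Nonempty O] : Ham R.i1 R.i2 := by
  obtain ⟨hv1, hv2⟩ := hv
  obtain ⟨o0⟩ : Nonempty O := inferInstance
  have hinv : R.Inv (R.perm val hv1) o0 (R.perm val hv1) := by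
    refine ⟨R.perm_arc val hv1, fun _ _ h => h, fun o => ?_, fun o _ => ?_⟩
    · have : R.perm val hv1 (o, K.U) = (o, K.W) := rfl
      rw [← this]
      exact sameCycle_apply_right.2 (SameCycle.refl _ _)
    · constructor
      · change R.fwd val (R.mn.symm o, K.W) = (o, K.S)
        simp [Str.fwd]
      · rfl
  obtain ⟨g, hg, hU⟩ := Str.exists_all hinv hmn
  refine ⟨g, hg.arc, ?_⟩
  have hstep : ∀ x, g.SameCycle x (g x) := fun x => sameCycle_apply_right.2 (SameCycle.refl _ _)
  have hW : ∀ o, g.SameCycle (o0, K.U) (o, K.W) := fun o => (hU o).trans (hg.uw o)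
  have hS : ∀ o, g.SameCycle (o0, K.U) (o, K.S) := by
    intro o
    obtain ⟨y, hy⟩ := g.surjective (o, K.S)
    have h1 := hg.arc y
    have h2 := hstep y
    rw [hy] at h1 h2
    rcases h1 with rfl | rfl
    · exact (hW _).trans h2
    · exact (hU _).trans h2
  have hT1 : ∀ o, val o = R.s o → g.SameCycle (o0, K.U) (o, K.T) := by
    intro o ho
    have h1 : ∃ o', (R.perm val hv1).SameCycle (o', K.U) (o, K.T) := by
      cases hs : R.s o
      · refine ⟨o, ?_⟩
        have : R.perm val hv1 (o, K.T) = (o, K.U) := by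
          change R.fwd val (o, K.T) = (o, K.U)
          simp [Str.fwd, hs, ho]
        rw [← this]
        exact sameCycle_apply_left.2 (SameCycle.refl _ _)
      · refine ⟨R.nx o, ?_⟩
        have : R.perm val hv1 (o, K.T) = (R.nx o, K.U) := by
          change R.fwd val (o, K.T) = (R.nx o, K.U)
          simp [Str.fwd, hs, ho]
        rw [← this]
        exact sameCycle_apply_left.2 (SameCycle.refl _ _)
    obtain ⟨o', h1⟩ := h1
    exact (hU o').trans (hg.coarse _ _ h1)
  have hT2 : ∀ o, val o ≠ R.s o → g.SameCycle (o, K.T) (R.tr o, K.T) := by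
    intro o ho
    apply hg.coarse
    have : R.perm val hv1 (o, K.T) = (R.tr o, K.T) := by
      change R.fwd val (o, K.T) = (R.tr o, K.T)
      cases hs : R.s o <;> cases hvo : val o <;> simp [hs, hvo] at ho <;> simp [Str.fwd, hs, hvo]
    rw [← this]
    exact sameCycle_apply_right.2 (SameCycle.refl _ _)
  have hT : ∀ o, g.SameCycle (o0, K.U) (o, K.T) := by
    intro o
    by_cases h1 : val o = R.s o
    · exact hT1 o h1
    by_cases h2 : val (R.tr o) = R.s (R.tr o)
    · exact (hT1 _ h2).trans (hT2 o h1).symm
    · have h3 : val (R.tr (R.tr o)) = R.s (R.tr (R.tr o)) := by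
        rcases hv2 o with h | h | h
        · exact absurd h h1
        · exact absurd h h2
        · exact h
      exact ((hT1 _ h3).trans (hT2 _ h2).symm).trans (hT2 o h1).symm
  have hall : ∀ x, g.SameCycle (o0, K.U) x := by
    rintro ⟨o, k⟩
    cases k
    · exact hT o
    · exact hS o
    · exact hU o
    · exact hW o
  exact fun x y => (hall x).symm.trans (hall y)

theorem Str.good_of_ham {R : Str O} (h : Ham R.i1 R.i2) (htr : ∀ o, R.tr (R.tr (R.tr o)) = o) :
    ∃ val, R.Good val := by
  classical
  obtain ⟨g, hg, hc⟩ := h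
  have hin : ∀ y, g.symm y = R.i1 y ∨ g.symm y = R.i2 y := by
    intro y
    have := hg (g.symm y)
    rwa [Equiv.apply_symm_apply] at this
  let val : O → Bool := fun o => decide (g.symm (R.tr o, K.T) = R.P o)
  have hT : ∀ o, g.symm (R.tr o, K.T) = R.P o ∨ g.symm (R.tr o, K.T) = R.L o := by
    intro o
    have := hin (R.tr o, K.T)
    simpa [Str.i1, Str.i2] using this
  have hPL : ∀ o, R.P o ≠ R.L o := fun o => R.P_ne_L o o (Or.inl rfl)
  have hv1 : ∀ o, val o = true → val (R.nx.symm o) = true := by
    intro o ho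
    have ho : g.symm (R.tr o, K.T) = R.P o := of_decide_eq_true ho
    have h1 : g.symm (o, K.U) = R.L (R.nx.symm o) := by
      rcases hin (o, K.U) with h | h
      · exfalso
        have : g.symm (o, K.U) = R.P o := h
        have := g.symm.injective (this.trans ho.symm)
        exact absurd this (by simp)
      · exact h
    apply decide_eq_true
    rcases hT (R.nx.symm o) with h | h
    · exact h
    · exfalso
      have := g.symm.injective (h.trans h1.symm)
      exact absurd this (by simp)
  have hv2 : ∀ (k : ℕ) (o : O), val o = true → val ((R.nx.symm ^ k : Perm O) o) = true := by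
    intro k
    induction k with
    | zero => intro o ho; exact ho
    | succ k ih =>
      intro o ho
      rw [pow_succ', mul_apply]
      exact hv1 _ (ih o ho)
  have hv3 : ∀ o, val o = true → val (R.nx o) = true := by
    intro o ho
    have h1 := hv2 (orderOf (R.nx.symm : Perm O) - 1) o ho
    have h2 : (R.nx.symm ^ (orderOf (R.nx.symm : Perm O) - 1) : Perm O) = R.nx := by
      have h3 : (R.nx.symm : Perm O) ^ (orderOf (R.nx.symm : Perm O) - 1) * R.nx.symm = 1 := by
        rw [← pow_succ, Nat.sub_add_cancel (orderOf_pos _), pow_orderOf_eq_one]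
      have h4 := eq_inv_of_mul_eq_one_left h3
      rw [h4]
      rfl
    rw [h2] at h1
    exact h1
  refine ⟨val, fun o => ?_, fun o => ?_⟩
  · cases h : val o
    · cases h' : val (R.nx o)
      · rfl
      · have := hv1 _ h'
        rw [Equiv.symm_apply_apply, h] at this
        exact absurd this (by simp)
    · exact hv3 o h
  · by_contra hcon
    push_neg at hcon
    have hfalse : ∀ o, val o ≠ R.s o → g (o, K.T) = (R.tr o, K.T) := by
      intro o ho
      have : g.symm (R.tr o, K.T) = (o, K.T) := by
        cases hs : R.s o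
        · have hvo : val o = true := by
            cases h : val o
            · rw [hs, h] at ho; exact absurd rfl ho
            · rfl
          have := of_decide_eq_true hvo
          rw [this, Str.P, hs]; simp
        · have hvo : val o = false := by
            cases h : val o
            · rfl
            · rw [hs, h] at ho; exact absurd rfl ho
          have h1 := of_decide_eq_false hvo
          rcases hT o with h | h
          · exact absurd h h1
          · rw [h, Str.L, hs]; simp
      rw [← this, Equiv.apply_symm_apply]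
    obtain ⟨f1, f2, f3⟩ := hcon
    have e1 := hfalse o f1
    have e2 := hfalse _ f2
    have e3 := hfalse _ f3
    rw [htr] at e3
    have hcl : ∀ k : ℕ, (g ^ k) (o, K.T) = (o, K.T) ∨ (g ^ k) (o, K.T) = (R.tr o, K.T) ∨
        (g ^ k) (o, K.T) = (R.tr (R.tr o), K.T) := by
      intro k
      induction k with
      | zero => exact Or.inl rfl
      | succ k ih =>
        rw [pow_succ', mul_apply]
        rcases ih with h | h | h
        · rw [h, e1]; exact Or.inr (Or.inl rfl)
        · rw [h, e2]; exact Or.inr (Or.inr rfl)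
        · rw [h, e3]; exact Or.inl rfl
    obtain ⟨k, hk⟩ := (hc (o, K.T) (o, K.U)).exists_nat_pow_eq
    rcases hcl k with h | h | h <;> rw [hk] at h <;> exact absurd h (by simp)

end main

end Pool.Agent.Q230.AS
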