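import Pool.Agent.Q230.AS.Gad
import Pool.Agent.Q230.CY.Occ
import Pool.Agent.NPC.Sat2

set_option autoImplicit false

namespace Pool.Agent.Q230.AS

open Pool.Agent.NPC Relation Equiv Equiv.Perm

/-! ### Isomorphic digraphs -/

theorem pair_map {V V' : Type} [Fintype V] [Fintype V'] (e : V ≃ V') {A : V → V → Prop}
    {A' : V' → V' → Prop} (h : ∀ a b, A a b ↔ A' (e a) (e b)) (hA : AntiStrongPair A) :
    AntiStrongPair A' := by
  obtain ⟨A₁, A₂, h1, h2, h3, h4, h5⟩ := hA
  refine ⟨fun u v => A₁ (e.symm u) (e.symm v), fun u v => A₂ (e.symm u) (e.symm v), ?_, ?_, ?_,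
    ?_, ?_⟩
  · intro u v huv
    have := (h _ _).1 (h1 _ _ huv)
    simpa using this
  · intro u v huv
    have := (h _ _).1 (h2 _ _ huv)
    simpa using this
  · intro u v huv
    exact h3 _ _ huv
  · rw [antistrong_iff] at h4 ⊢
    obtain ⟨hc, hr⟩ := h4
    refine ⟨by rw [← Fintype.card_congr e]; exact hc, fun s t => ?_⟩
    let φ : BG A₁ →g BG (fun u v => A₁ (e.symm u) (e.symm v)) :=
      { toFun := Sum.map e e
        map_rel' := by
          rintro (a | a) (b | b) hab
          · exact hab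
          · change A₁ (e.symm (e a)) (e.symm (e b))
            rw [Equiv.symm_apply_apply, Equiv.symm_apply_apply]; exact hab
          · change A₁ (e.symm (e b)) (e.symm (e a))
            rw [Equiv.symm_apply_apply, Equiv.symm_apply_apply]; exact hab
          · exact hab }
    have := (hr (Sum.map e.symm e.symm s) (Sum.map e.symm e.symm t)).map φ
    have hφ : ∀ s, φ (Sum.map e.symm e.symm s) = s := by
      rintro (a | a) <;> simp [φ]
    rwa [hφ, hφ] at this
  · intro x y
    have := h5 (e.symm x) (e.symm y)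
    have h6 : ReflTransGen (fun u v => A₂ (e.symm u) (e.symm v)) (e (e.symm x)) (e (e.symm y)) := by
      generalize e.symm x = x', e.symm y = y' at this
      induction this with
      | refl => exact ReflTransGen.refl
      | tail _ h ih => exact ih.tail (by simpa using h)
    simpa using h6

theorem pair_iff {V V' : Type} [Fintype V] [Fintype V'] (e : V ≃ V') {A : V → V → Prop}
    {A' : V' → V' → Prop} (h : ∀ a b, A a b ↔ A' (e a) (e b)) :
    AntiStrongPair A ↔ AntiStrongPair A' :=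
  ⟨pair_map e h, pair_map e.symm fun a b => by rw [h]; simp⟩

/-! ### The structure of a formula -/

/-- a formula -/
abbrev Fm : Type := List (Lit ℕ × Lit ℕ × Lit ℕ)

/-- the literal at an occurrence -/
def lt (φ : Fm) (o : ℕ) : Bool × ℕ :=
  if o % 3 = 0 then (φ.getD (o / 3) ((true, 0), (true, 0), (true, 0))).1
  else if o % 3 = 1 then (φ.getD (o / 3) ((true, 0), (true, 0), (true, 0))).2.1
  else (φ.getD (o / 3) ((true, 0), (true, 0), (true, 0))).2.2

/-- the variable at an occurrence -/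
def vr (φ : Fm) (o : ℕ) : ℕ := (lt φ o).2

/-- number of occurrences -/
def nn (φ : Fm) : ℕ := 3 * φ.length

/-- cyclic order of the occurrences of the variables -/
def nxo (φ : Fm) (o : ℕ) : ℕ := CY.nxt (nn φ) (vr φ) o

/-- cyclic order of the occurrences of the variables -/
def pro (φ : Fm) (o : ℕ) : ℕ := CY.prv (nn φ) (vr φ) o

/-- next in the clause -/
def t3 (o : ℕ) : ℕ := 3 * (o / 3) + (o % 3 + 1) % 3

/-- previous in the clause -/
def t3' (o : ℕ) : ℕ := 3 * (o / 3) + (o % 3 + 2) % 3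

/-- next on the main line -/
def m1 (n o : ℕ) : ℕ := if o + 1 < n then o + 1 else 0

/-- previous on the main line -/
def m1' (n o : ℕ) : ℕ := if o = 0 then n - 1 else o - 1

theorem m1'_m1 {n o : ℕ} (h : o < n) : m1' n (m1 n o) = o := by
  unfold m1 m1'
  by_cases h1 : o + 1 < n
  · rw [if_pos h1, if_neg (by omega)]; omega
  · rw [if_neg h1, if_pos rfl]; omega

theorem m1_m1' {n o : ℕ} (h : o < n) : m1 n (m1' n o) = o := by
  unfold m1 m1'
  by_cases h1 : o = 0
  · rw [if_pos h1, if_neg (by omega)]; omega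
  · rw [if_neg h1, if_pos (by omega)]; omega

/-- the structure -/
def str (φ : Fm) : Str (Fin (nn φ)) where
  s o := (lt φ o.1).1
  nx :=
    { toFun := fun o => ⟨nxo φ o.1, (CY.cyc_occs (nn φ) (vr φ)).nxt_lt o.1 o.2⟩
      invFun := fun o => ⟨pro φ o.1, (CY.cyc_occs (nn φ) (vr φ)).prv_lt o.1 o.2⟩
      left_inv := fun o => Fin.ext ((CY.cyc_occs (nn φ) (vr φ)).prv_nxt o.1 o.2)
      right_inv := fun o => Fin.ext ((CY.cyc_occs (nn φ) (vr φ)).nxt_prv o.1 o.2) }
  tr :=
    { toFun := fun o => ⟨t3 o.1, by have := o.2; unfold t3 nn at *; omega⟩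
      invFun := fun o => ⟨t3' o.1, by have := o.2; unfold t3' nn at *; omega⟩
      left_inv := fun o => Fin.ext (by simp only [t3, t3']; omega)
      right_inv := fun o => Fin.ext (by simp only [t3, t3']; omega) }
  mn :=
    { toFun := fun o => ⟨m1 (nn φ) o.1, by have := o.2; unfold m1; split_ifs <;> omega⟩
      invFun := fun o => ⟨m1' (nn φ) o.1, by have := o.2; unfold m1'; split_ifs <;> omega⟩
      left_inv := fun o => Fin.ext (m1'_m1 o.2)
      right_inv := fun o => Fin.ext (m1_m1' o.2) }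

theorem mn_cycle (φ : Fm) (x y : Fin (nn φ)) : (str φ).mn.SameCycle x y := by
  have h0 : 0 < nn φ := by have := x.2; omega
  have key : ∀ k (hk : k < nn φ), (str φ).mn.SameCycle ⟨0, h0⟩ ⟨k, hk⟩ := by
    intro k
    induction k with
    | zero => intro hk; exact SameCycle.refl _ _
    | succ k ih =>
      intro hk
      have h1 := ih (by omega)
      have h2 : (str φ).mn ⟨k, by omega⟩ = ⟨k + 1, hk⟩ := Fin.ext (by
        change m1 (nn φ) k = k + 1
        unfold m1; rw [if_pos hk])
      rw [← h2]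
      exact sameCycle_apply_right.2 h1
  exact (key x.1 x.2).symm.trans (key y.1 y.2)

theorem tr3 (φ : Fm) (o : Fin (nn φ)) : (str φ).tr ((str φ).tr ((str φ).tr o)) = o :=
  Fin.ext (by change t3 (t3 (t3 o.1)) = o.1; simp only [t3]; omega)

theorem lt0 {φ : Fm} {i : ℕ} (h : i < φ.length) : lt φ (3 * i) = φ[i].1 := by
  unfold lt
  rw [if_pos (by omega), show 3 * i / 3 = i by omega, List.getD_eq_getElem _ _ h]

theorem lt1 {φ : Fm} {i : ℕ} (h : i < φ.length) : lt φ (3 * i + 1) = φ[i].2.1 := by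
  unfold lt
  rw [if_neg (by omega), if_pos (by omega), show (3 * i + 1) / 3 = i by omega,
    List.getD_eq_getElem _ _ h]

theorem lt2 {φ : Fm} {i : ℕ} (h : i < φ.length) : lt φ (3 * i + 2) = φ[i].2.2 := by
  unfold lt
  rw [if_neg (by omega), if_neg (by omega), show (3 * i + 2) / 3 = i by omega,
    List.getD_eq_getElem _ _ h]

theorem good_iff (φ : Fm) : (∃ val, (str φ).Good val) ↔ SAT3 φ := by
  classical
  constructor
  · rintro ⟨val, h1, h2⟩
    have hcon := (CY.cyc_occs (nn φ) (vr φ)).conn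
      (fun o => ∃ h : o < nn φ, val ⟨o, h⟩ = true) (by
        intro o ho
        constructor
        · rintro ⟨h, hv⟩
          refine ⟨(CY.cyc_occs (nn φ) (vr φ)).nxt_lt o ho, ?_⟩
          exact (h1 ⟨o, ho⟩).trans hv
        · rintro ⟨h, hv⟩
          exact ⟨ho, (h1 ⟨o, ho⟩).symm.trans hv⟩)
    let τ : ℕ → Bool := fun v => decide (∃ o, ∃ h : o < nn φ, vr φ o = v ∧ val ⟨o, h⟩ = true)
    have hτ : ∀ o : Fin (nn φ), τ (lt φ o.1).2 = val o := by
      intro o
      cases hv : val o
      · apply decide_eq_false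
        rintro ⟨o', h', he, hv'⟩
        have := (hcon o' h' o.1 o.2 he).1 ⟨h', hv'⟩
        obtain ⟨_, h3⟩ := this
        rw [hv] at h3
        exact absurd h3 (by simp)
      · exact decide_eq_true ⟨o.1, o.2, rfl, hv⟩
    refine ⟨τ, ?_⟩
    intro c hc
    obtain ⟨i, hi, rfl⟩ := List.getElem_of_mem hc
    have k0 : 3 * i < nn φ := by unfold nn; omega
    have k1 : 3 * i + 1 < nn φ := by unfold nn; omega
    have k2 : 3 * i + 2 < nn φ := by unfold nn; omega
    have e1 : (str φ).tr ⟨3 * i, k0⟩ = ⟨3 * i + 1, k1⟩ :=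
      Fin.ext (by change t3 (3 * i) = _; simp only [t3]; omega)
    have e2 : (str φ).tr ⟨3 * i + 1, k1⟩ = ⟨3 * i + 2, k2⟩ :=
      Fin.ext (by change t3 (3 * i + 1) = _; simp only [t3]; omega)
    have h3 := h2 ⟨3 * i, k0⟩
    rw [e1, e2, ← hτ, ← hτ, ← hτ] at h3
    simp only [str, lt0 hi, lt1 hi, lt2 hi] at h3
    exact h3
  · rintro ⟨τ, hτ⟩
    refine ⟨fun o => τ (lt φ o.1).2, ?_, ?_⟩
    · intro o
      have := (CY.cyc_occs (nn φ) (vr φ)).var_nxt o.1 o.2
      change τ (vr φ (nxo φ o.1)) = τ (vr φ o.1)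
      unfold nxo
      rw [this]
    · intro o
      have ho := o.2
      have hi : o.1 / 3 < φ.length := by unfold nn at ho; omega
      have h3 := hτ _ (List.getElem_mem hi)
      rw [← lt0 hi, ← lt1 hi, ← lt2 hi] at h3
      change τ (lt φ o.1).2 = (lt φ o.1).1 ∨ τ (lt φ (t3 o.1)).2 = (lt φ (t3 o.1)).1 ∨
        τ (lt φ (t3 (t3 o.1))).2 = (lt φ (t3 (t3 o.1))).1
      have hcases : o.1 = 3 * (o.1 / 3) ∨ o.1 = 3 * (o.1 / 3) + 1 ∨ o.1 = 3 * (o.1 / 3) + 2 := by
        omega
      rcases hcases with h | h | h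
      · have e1 : t3 o.1 = 3 * (o.1 / 3) + 1 := by simp only [t3]; omega
        have e2 : t3 (3 * (o.1 / 3) + 1) = 3 * (o.1 / 3) + 2 := by simp only [t3]; omega
        have e0 : lt φ o.1 = lt φ (3 * (o.1 / 3)) := congrArg _ h
        rw [e1, e2, e0]
        exact h3
      · have e1 : t3 o.1 = 3 * (o.1 / 3) + 2 := by simp only [t3]; omega
        have e2 : t3 (3 * (o.1 / 3) + 2) = 3 * (o.1 / 3) := by simp only [t3]; omega
        have e0 : lt φ o.1 = lt φ (3 * (o.1 / 3) + 1) := congrArg _ h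
        rw [e1, e2, e0]
        tauto
      · have e1 : t3 o.1 = 3 * (o.1 / 3) := by simp only [t3]; omega
        have e2 : t3 (3 * (o.1 / 3)) = 3 * (o.1 / 3) + 1 := by simp only [t3]; omega
        have e0 : lt φ o.1 = lt φ (3 * (o.1 / 3) + 2) := congrArg _ h
        rw [e1, e2, e0]
        tauto

/-! ### The instance -/

/-- code of the first tail -/
def cP (φ : Fm) (o : ℕ) : ℕ := if (lt φ o).1 = true then 4 * o + 1 else 4 * o

/-- code of the second tail -/
def cL (φ : Fm) (o : ℕ) : ℕ := if (lt φ o).1 = true then 4 * o else 4 * o + 1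

/-- first in-neighbour -/
def j1 (φ : Fm) (x : ℕ) : ℕ :=
  if x % 4 = 0 then cP φ (t3' (x / 4)) else if x % 4 = 1 then 4 * m1' (nn φ) (x / 4) + 3 else
    if x % 4 = 2 then cP φ (x / 4) else 4 * (x / 4) + 2

/-- second in-neighbour -/
def j2 (φ : Fm) (x : ℕ) : ℕ :=
  if x % 4 = 0 then cL φ (t3' (x / 4)) else if x % 4 = 1 then 4 * (x / 4) + 2 else
    if x % 4 = 2 then cL φ (pro φ (x / 4)) else 4 * m1' (nn φ) (x / 4) + 3

/-- the instance -/
def inst (φ : Fm) : Inst :=
  (4 * nn φ + 1, ((List.range (4 * nn φ)).flatMap fun x =>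
    [(j1 φ x, x), (j2 φ x, x), (x, 4 * nn φ)]) ++ [(4 * nn φ, 2), (4 * nn φ, 3)])

/-- the number of a kind -/
def kc : K → ℕ
  | K.T => 0
  | K.S => 1
  | K.U => 2
  | K.W => 3

/-- the code of a vertex -/
def code (φ : Fm) : Option (Fin (nn φ) × K) → ℕ
  | none => 4 * nn φ
  | some (o, k) => 4 * o.1 + kc k

theorem kc_lt (k : K) : kc k < 4 := by cases k <;> simp [kc]

theorem kc_inj {k k' : K} (h : kc k = kc k') : k = k' := by
  cases k <;> cases k' <;> simp [kc] at h ⊢

theorem code_lt (φ : Fm) (a : Option (Fin (nn φ) × K)) : code φ a < 4 * nn φ + 1 := by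
  rcases a with _ | ⟨o, k⟩
  · simp [code]
  · have := o.2
    have := kc_lt k
    simp only [code]; omega

theorem code_inj (φ : Fm) : Function.Injective (code φ) := by
  rintro (_ | ⟨o, k⟩) (_ | ⟨o', k'⟩) h
  · rfl
  · have := o'.2
    have := kc_lt k'
    simp only [code] at h; omega
  · have := o.2
    have := kc_lt k
    simp only [code] at h; omega
  · have h1 := kc_lt k
    have h2 := kc_lt k'
    simp only [code] at h
    have h3 : o.1 = o'.1 := by omega
    have h4 : kc k = kc k' := by omega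
    rw [Fin.ext h3, kc_inj h4]

/-- the vertices of the instance -/
noncomputable def eqv (φ : Fm) : Option (Fin (nn φ) × K) ≃ Fin (4 * nn φ + 1) :=
  Equiv.ofBijective (fun a => ⟨code φ a, code_lt φ a⟩)
    ((Fintype.bijective_iff_injective_and_card _).2 ⟨fun a b h => code_inj φ (Fin.mk.inj h), by
      have hK : Fintype.card K = 4 := rfl
      rw [Fintype.card_option, Fintype.card_prod, Fintype.card_fin, Fintype.card_fin, hK]
      omega⟩)

theorem eqv_val (φ : Fm) (a : Option (Fin (nn φ) × K)) : (eqv φ a).1 = code φ a := rfl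

theorem code_P (φ : Fm) (o : Fin (nn φ)) : code φ (some ((str φ).P o)) = cP φ o.1 := by
  unfold Str.P cP
  change code φ (some (if (lt φ o.1).1 = true then _ else _)) = _
  split_ifs <;> rfl

theorem code_L (φ : Fm) (o : Fin (nn φ)) : code φ (some ((str φ).L o)) = cL φ o.1 := by
  unfold Str.L cL
  change code φ (some (if (lt φ o.1).1 = true then _ else _)) = _
  split_ifs <;> rfl

theorem code_i1 (φ : Fm) (y : Fin (nn φ) × K) :
    code φ (some ((str φ).i1 y)) = j1 φ (code φ (some y)) := by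
  obtain ⟨o, k⟩ := y
  have h1 : ∀ r, r < 4 → (4 * o.1 + r) % 4 = r := fun r hr => by omega
  have h2 : ∀ r, r < 4 → (4 * o.1 + r) / 4 = o.1 := fun r hr => by omega
  cases k
  · change code φ (some ((str φ).P ((str φ).tr.symm o))) = j1 φ (4 * o.1 + 0)
    rw [code_P]
    unfold j1
    rw [h1 0 (by omega), h2 0 (by omega), if_pos rfl]
    rfl
  · change 4 * m1' (nn φ) o.1 + 3 = j1 φ (4 * o.1 + 1)
    unfold j1
    rw [h1 1 (by omega), h2 1 (by omega), if_neg (by omega), if_pos rfl]
  · change code φ (some ((str φ).P o)) = j1 φ (4 * o.1 + 2)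
    rw [code_P]
    unfold j1
    rw [h1 2 (by omega), h2 2 (by omega), if_neg (by omega), if_neg (by omega), if_pos rfl]
  · change 4 * o.1 + 2 = j1 φ (4 * o.1 + 3)
    unfold j1
    rw [h1 3 (by omega), h2 3 (by omega), if_neg (by omega), if_neg (by omega),
      if_neg (by omega)]

theorem code_i2 (φ : Fm) (y : Fin (nn φ) × K) :
    code φ (some ((str φ).i2 y)) = j2 φ (code φ (some y)) := by
  obtain ⟨o, k⟩ := y
  have h1 : ∀ r, r < 4 → (4 * o.1 + r) % 4 = r := fun r hr => by omega
  have h2 : ∀ r, r < 4 → (4 * o.1 + r) / 4 = o.1 := fun r hr => by omega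
  cases k
  · change code φ (some ((str φ).L ((str φ).tr.symm o))) = j2 φ (4 * o.1 + 0)
    rw [code_L]
    unfold j2
    rw [h1 0 (by omega), h2 0 (by omega), if_pos rfl]
    rfl
  · change 4 * o.1 + 2 = j2 φ (4 * o.1 + 1)
    unfold j2
    rw [h1 1 (by omega), h2 1 (by omega), if_neg (by omega), if_pos rfl]
  · change code φ (some ((str φ).L ((str φ).nx.symm o))) = j2 φ (4 * o.1 + 2)
    rw [code_L]
    unfold j2
    rw [h1 2 (by omega), h2 2 (by omega), if_neg (by omega), if_neg (by omega), if_pos rfl]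
    rfl
  · change 4 * m1' (nn φ) o.1 + 3 = j2 φ (4 * o.1 + 3)
    unfold j2
    rw [h1 3 (by omega), h2 3 (by omega), if_neg (by omega), if_neg (by omega),
      if_neg (by omega)]

theorem mem_inst {φ : Fm} {a b : ℕ} : (a, b) ∈ (inst φ).2 ↔
    (b < 4 * nn φ ∧ (a = j1 φ b ∨ a = j2 φ b)) ∨ (a < 4 * nn φ ∧ b = 4 * nn φ) ∨
      (a = 4 * nn φ ∧ (b = 2 ∨ b = 3)) := by
  unfold inst
  simp only [List.mem_append, List.mem_flatMap, List.mem_range, List.mem_cons, Prod.mk.injEq,
    List.not_mem_nil, or_false]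
  constructor
  · rintro (⟨x, hx, ⟨rfl, rfl⟩ | ⟨rfl, rfl⟩ | ⟨rfl, rfl⟩⟩ | h)
    · exact Or.inl ⟨hx, Or.inl rfl⟩
    · exact Or.inl ⟨hx, Or.inr rfl⟩
    · exact Or.inr (Or.inl ⟨hx, rfl⟩)
    · right; right
      rcases h with ⟨h1, h2⟩ | ⟨h1, h2⟩
      · exact ⟨h1, Or.inl h2⟩
      · exact ⟨h1, Or.inr h2⟩
  · rintro (⟨h1, h2 | h2⟩ | ⟨h1, h2⟩ | ⟨h1, h2 | h2⟩)
    · exact Or.inl ⟨b, h1, Or.inl ⟨h2, rfl⟩⟩
    · exact Or.inl ⟨b, h1, Or.inr (Or.inl ⟨h2, rfl⟩)⟩
    · exact Or.inl ⟨a, h1, Or.inr (Or.inr ⟨rfl, h2⟩)⟩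
    · exact Or.inr (Or.inl ⟨h1, h2⟩)
    · exact Or.inr (Or.inr ⟨h1, h2⟩)

theorem code_some_lt {φ : Fm} (y : Fin (nn φ) × K) : code φ (some y) < 4 * nn φ := by
  obtain ⟨o, k⟩ := y
  have := o.2
  have := kc_lt k
  simp only [code]; omega

theorem arcs_iff (φ : Fm) (hn : 0 < nn φ) (a b : Option (Fin (nn φ) × K)) :
    DA (str φ).i1 (str φ).i2 (⟨0, hn⟩, K.U) (⟨0, hn⟩, K.W) a b ↔
      arcs (inst φ) (eqv φ a) (eqv φ b) := by
  have hR : arcs (inst φ) (eqv φ a) (eqv φ b) ↔ (code φ a, code φ b) ∈ (inst φ).2 := Iff.rfl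
  rw [hR, mem_inst]
  rcases a with _ | a <;> rcases b with _ | b
  · change False ↔ _
    simp only [code, lt_irrefl, false_and, false_or]
    constructor
    · exact False.elim
    · rintro ⟨-, h⟩; unfold nn at *; omega
  · have hb := code_some_lt b
    change (b = (⟨0, hn⟩, K.U) ∨ b = (⟨0, hn⟩, K.W)) ↔ _
    constructor
    · rintro (rfl | rfl)
      · exact Or.inr (Or.inr ⟨rfl, Or.inl rfl⟩)
      · exact Or.inr (Or.inr ⟨rfl, Or.inr rfl⟩)
    · rintro (⟨-, h | h⟩ | ⟨h, -⟩ | ⟨-, h | h⟩)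
      · rw [← code_i1] at h
        exact absurd (code_inj φ h) (by simp)
      · rw [← code_i2] at h
        exact absurd (code_inj φ h) (by simp)
      · simp only [code] at h; omega
      · left
        have : code φ (some b) = code φ (some (⟨0, hn⟩, K.U)) := h
        exact Option.some.inj (code_inj φ this)
      · right
        have : code φ (some b) = code φ (some (⟨0, hn⟩, K.W)) := h
        exact Option.some.inj (code_inj φ this)
  · have ha := code_some_lt a
    change True ↔ _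
    simp only [true_iff]
    exact Or.inr (Or.inl ⟨ha, rfl⟩)
  · have ha := code_some_lt a
    have hb := code_some_lt b
    change (a = (str φ).i1 b ∨ a = (str φ).i2 b) ↔ _
    rw [← code_i1, ← code_i2]
    constructor
    · rintro (rfl | rfl)
      · exact Or.inl ⟨hb, Or.inl rfl⟩
      · exact Or.inl ⟨hb, Or.inr rfl⟩
    · rintro (⟨-, h | h⟩ | ⟨-, h⟩ | ⟨h, -⟩)
      · exact Or.inl (Option.some.inj (code_inj φ h))
      · exact Or.inr (Option.some.inj (code_inj φ h))
      · omega
      · omega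

theorem i1_ne_i2 (φ : Fm) (y : Fin (nn φ) × K) : (str φ).i1 y ≠ (str φ).i2 y := by
  obtain ⟨o, k⟩ := y
  cases k
  · exact Str.P_ne_L _ _ _ (em _)
  · simp [Str.i1, Str.i2]
  · exact Str.P_ne_L _ _ _ (em _)
  · simp [Str.i1, Str.i2]

theorem isDigraph_inst (φ : Fm) (hn : 0 < nn φ) : IsDigraph (inst φ) := by
  intro ⟨a, b⟩ hab
  have h4 : 3 ≤ nn φ := by unfold nn at *; omega
  have e1 : (inst φ).1 = 4 * nn φ + 1 := rfl
  rw [mem_inst] at hab
  simp only [e1]
  rcases hab with ⟨hb, h⟩ | ⟨h1, h2⟩ | ⟨h1, h2⟩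
  · obtain ⟨y, hy⟩ : ∃ y, code φ (some y) = b := by
      obtain ⟨c, hc⟩ := (eqv φ).surjective ⟨b, by omega⟩
      have hc' : code φ c = b := congrArg Fin.val hc
      rcases c with _ | y
      · simp only [code] at hc'; omega
      · exact ⟨y, hc'⟩
    have hirr1 : (str φ).i1 y ≠ y := by
      obtain ⟨o, k⟩ := y
      cases k
      · intro he
        have h1 : (str φ).P ((str φ).tr.symm o) = (o, K.T) := he
        have h2 : ((str φ).P ((str φ).tr.symm o)).1 = (str φ).tr.symm o := by
          unfold Str.P; split_ifs <;> rfl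
        rw [h1] at h2
        have h3 : o.1 = t3' o.1 := congrArg Fin.val h2
        simp only [t3'] at h3; omega
      · simp [Str.i1]
      · intro he
        have h1 : (str φ).P o = (o, K.U) := he
        unfold Str.P at h1
        split_ifs at h1 <;> simp at h1
      · simp [Str.i1]
    have hirr2 : (str φ).i2 y ≠ y := by
      obtain ⟨o, k⟩ := y
      cases k
      · intro he
        have h1 : (str φ).L ((str φ).tr.symm o) = (o, K.T) := he
        have h2 : ((str φ).L ((str φ).tr.symm o)).1 = (str φ).tr.symm o := by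
          unfold Str.L; split_ifs <;> rfl
        rw [h1] at h2
        have h3 : o.1 = t3' o.1 := congrArg Fin.val h2
        simp only [t3'] at h3; omega
      · simp [Str.i2]
      · intro he
        have h1 : (str φ).L ((str φ).nx.symm o) = (o, K.U) := he
        unfold Str.L at h1
        split_ifs at h1 <;> simp at h1
      · intro he
        have h1 : ((str φ).mn.symm o, K.W) = (o, K.W) := he
        have h3 : m1' (nn φ) o.1 = o.1 := congrArg Fin.val (Prod.mk.inj h1).1
        have := o.2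
        simp only [m1'] at h3
        split_ifs at h3 <;> omega
    rcases h with h | h
    · rw [h, ← hy, ← code_i1]
      have := code_some_lt ((str φ).i1 y)
      have := code_some_lt y
      refine ⟨by omega, by omega, fun he => hirr1 ?_⟩
      exact Option.some.inj (code_inj φ he)
    · rw [h, ← hy, ← code_i2]
      have := code_some_lt ((str φ).i2 y)
      have := code_some_lt y
      refine ⟨by omega, by omega, fun he => hirr2 ?_⟩
      exact Option.some.inj (code_inj φ he)
  · omega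
  · omega

theorem correct (φ : Fm) (hφ : φ ≠ []) : SAT3 φ ↔ Problem (inst φ) := by
  classical
  have hn : 0 < nn φ := by
    unfold nn
    have := List.length_pos_iff.2 hφ
    omega
  haveI : Nonempty (Fin (nn φ)) := ⟨⟨0, hn⟩⟩
  have h1 : AntiStrongPair (arcs (inst φ)) ↔
      AntiStrongPair (DA (str φ).i1 (str φ).i2 (⟨0, hn⟩, K.U) (⟨0, hn⟩, K.W)) :=
    (pair_iff (eqv φ) (arcs_iff φ hn)).symm
  have hc : 2 ≤ Fintype.card (Fin (nn φ) × K) := by
    have hK : Fintype.card K = 4 := rfl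
    rw [Fintype.card_prod, Fintype.card_fin, hK]
    omega
  unfold Problem
  rw [h1]
  constructor
  · intro h
    refine ⟨isDigraph_inst φ hn, pair_of_ham hc (i1_ne_i2 φ) (by simp) ?_⟩
    obtain ⟨val, hv⟩ := (good_iff φ).2 h
    exact Str.ham_of_good hv (mn_cycle φ)
  · rintro ⟨-, h⟩
    exact (good_iff φ).1 (Str.good_of_ham (ham_of_pair hc (i1_ne_i2 φ) h) (tr3 φ))

end Pool.Agent.Q230.AS
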