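import Pool.Agent.Q230.AS.Inst
import Pool.Agent.H671R2.PolyAuto
import Pool.Agent.H612.CollectPoly

set_option autoImplicit false

namespace Pool.Agent.Q230.AS

open Pool.Agent.NPC

section poly

variable {α : Type} [TEnc α]

theorem poly_lt {φ : α → Fm} {o : α → ℕ} (hφ : NPC.Poly φ) (ho : NPC.Poly o) :
    NPC.Poly (fun a => lt (φ a) (o a)) := by
  unfold lt; fun_prop

theorem poly_vr {φ : α → Fm} {o : α → ℕ} (hφ : NPC.Poly φ) (ho : NPC.Poly o) :
    NPC.Poly (fun a => vr (φ a) (o a)) := (poly_lt hφ ho).snd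

theorem poly_nn {φ : α → Fm} (hφ : NPC.Poly φ) : NPC.Poly (fun a => nn (φ a)) := by
  unfold nn; fun_prop

theorem upoly_nn {φ : α → Fm} (hφ : NPC.Poly φ) : UPoly (fun a => nn (φ a)) :=
  UPoly.mul (UPoly.const 3) (UPoly.length hφ)

theorem poly_occs {φ : α → Fm} {v : α → ℕ} (hφ : NPC.Poly φ) (hv : NPC.Poly v) :
    NPC.Poly (fun a => CY.occs (nn (φ a)) (vr (φ a)) (v a)) := by
  unfold CY.occs
  refine Poly.filter (p := fun a o => decide (vr (φ a) o = v a)) (upoly_nn hφ).range ?_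
  exact Poly.decide_eq (poly_vr (hφ.comp (Poly.fst Poly.id)) (Poly.snd Poly.id))
    (hv.comp (Poly.fst Poly.id))

theorem poly_pro {φ : α → Fm} {o : α → ℕ} (hφ : NPC.Poly φ) (ho : NPC.Poly o) :
    NPC.Poly (fun a => pro (φ a) (o a)) := by
  have h := poly_occs hφ (poly_vr hφ ho)
  exact Poly.getD h (Poly.mod (Poly.add (H612.poly_idxOf h ho) (Poly.sub (Poly.length h)
    (NPC.Poly.const 1))) (Poly.length h)) (NPC.Poly.const 0)

theorem poly_cP {φ : α → Fm} {o : α → ℕ} (hφ : NPC.Poly φ) (ho : NPC.Poly o) :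
    NPC.Poly (fun a => cP (φ a) (o a)) := by
  have h := (poly_lt hφ ho).fst
  unfold cP; fun_prop

theorem poly_cL {φ : α → Fm} {o : α → ℕ} (hφ : NPC.Poly φ) (ho : NPC.Poly o) :
    NPC.Poly (fun a => cL (φ a) (o a)) := by
  have h := (poly_lt hφ ho).fst
  unfold cL; fun_prop

theorem poly_m1' {n o : α → ℕ} (hn : NPC.Poly n) (ho : NPC.Poly o) :
    NPC.Poly (fun a => m1' (n a) (o a)) := by
  unfold m1'; fun_prop

theorem poly_t3' {o : α → ℕ} (ho : NPC.Poly o) : NPC.Poly (fun a => t3' (o a)) := by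
  unfold t3'; fun_prop

theorem poly_j1 {φ : α → Fm} {x : α → ℕ} (hφ : NPC.Poly φ) (hx : NPC.Poly x) :
    NPC.Poly (fun a => j1 (φ a) (x a)) := by
  have h4 : NPC.Poly (fun a => x a / 4) := by fun_prop
  have h1 := poly_cP hφ (poly_t3' h4)
  have h2 := poly_m1' (poly_nn hφ) h4
  have h3 := poly_cP hφ h4
  unfold j1; fun_prop

theorem poly_j2 {φ : α → Fm} {x : α → ℕ} (hφ : NPC.Poly φ) (hx : NPC.Poly x) :
    NPC.Poly (fun a => j2 (φ a) (x a)) := by
  have h4 : NPC.Poly (fun a => x a / 4) := by fun_prop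
  have h1 := poly_cL hφ (poly_t3' h4)
  have h2 := poly_m1' (poly_nn hφ) h4
  have h3 := poly_cL hφ (poly_pro hφ h4)
  unfold j2; fun_prop

theorem poly_inst : NPC.Poly inst := by
  unfold inst
  have hn := poly_nn (Poly.id (α := Fm))
  have hr : NPC.Poly (fun φ : Fm => List.range (4 * nn φ)) :=
    (UPoly.mul (UPoly.const 4) (upoly_nn (Poly.id (α := Fm)))).range
  have h1 := poly_j1 (Poly.fst (Poly.id (α := Fm × ℕ))) (Poly.snd (Poly.id (α := Fm × ℕ)))
  have h2 := poly_j2 (Poly.fst (Poly.id (α := Fm × ℕ))) (Poly.snd (Poly.id (α := Fm × ℕ)))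
  have h3 := poly_nn (Poly.fst (Poly.id (α := Fm × ℕ)))
  have h4 : NPC.Poly (fun φ : Fm => (List.range (4 * nn φ)).flatMap fun x =>
      [(j1 φ x, x), (j2 φ x, x), (x, 4 * nn φ)]) :=
    Poly.flatMap (F := fun (φ : Fm) x => [(j1 φ x, x), (j2 φ x, x), (x, 4 * nn φ)]) hr (by
      fun_prop)
  fun_prop

end poly

theorem hard : NPHardP Problem :=
  (hardPr_SAT3b.trans (Pr' := fun _ => True) poly_inst (fun _ _ => trivial)
    (fun φ h => correct φ h.2.2)).toHardI.toNPHardP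

end Pool.Agent.Q230.AS
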